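import Mathlib

/-!
Shape argument for (gapped) patterns `12 ⊕ σ` and `21 ⊕ σ`, `σ ∈ {12, 21}`.
-/

namespace R123.Gap

open Finset

/-- `x < y` or `y < x` -/
def rel (up : Bool) (x y : ℕ) : Prop := if up then x < y else y < x

/-- There is a copy of `σ` (`12` if `up`, else `21`; inner distance at least `g2`) to the north-east
of the cell `(c,y)`, at column distance at least `g1`. -/
def In (up : Bool) (g1 g2 n : ℕ) (f : ℕ → ℕ) (c y : ℕ) : Prop :=
  ∃ a b, c + g1 ≤ a ∧ a + g2 ≤ b ∧ b < n ∧ y < f a ∧ y < f b ∧ rel up (f a) (f b)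

variable {up : Bool} {g1 g2 n : ℕ}

theorem In_mono {f : ℕ → ℕ} {c c' y y' : ℕ} (hc : c' ≤ c) (hy : y' ≤ y)
    (h : In up g1 g2 n f c y) : In up g1 g2 n f c' y' := by
  obtain ⟨a, b, h1, h2, h3, h4, h5, h6⟩ := h
  exact ⟨a, b, by omega, h2, h3, by omega, by omega, h6⟩

/-- `f` and `f'` have the same outside points. -/
def Same (up : Bool) (g1 g2 n : ℕ) (f f' : ℕ → ℕ) : Prop :=
  ∀ x, x < n → (In up g1 g2 n f x (f x) ↔ In up g1 g2 n f' x (f' x)) ∧
    (¬ In up g1 g2 n f x (f x) → f' x = f x)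

theorem in_of_same (hg1 : 1 ≤ g1) (hg2 : 1 ≤ g2) {f f' : ℕ → ℕ} (h : Same up g1 g2 n f f') :
    ∀ m c y, n - c ≤ m → In up g1 g2 n f c y → In up g1 g2 n f' c y := by
  intro m
  induction m with
  | zero =>
    rintro c y hm ⟨a, b, h1, h2, h3, _⟩
    omega
  | succ m ih =>
    intro c y hm hI
    obtain ⟨a, b, h1, h2, h3, h4, h5, h6⟩ := hI
    by_cases ha : In up g1 g2 n f a (f a)
    · exact In_mono (by omega) h4.le (ih a (f a) (by omega) ha)
    · by_cases hb : In up g1 g2 n f b (f b)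
      · exact In_mono (by omega) h5.le (ih b (f b) (by omega) hb)
      · refine ⟨a, b, h1, h2, h3, ?_, ?_, ?_⟩
        · rw [(h a (by omega)).2 ha]; exact h4
        · rw [(h b h3).2 hb]; exact h5
        · rw [(h a (by omega)).2 ha, (h b h3).2 hb]; exact h6

theorem same_symm {f f' : ℕ → ℕ} (h : Same up g1 g2 n f f') : Same up g1 g2 n f' f := by
  intro x hx
  obtain ⟨h1, h2⟩ := h x hx
  exact ⟨h1.symm, fun h3 => (h2 (fun h4 => h3 (h1.mp h4))).symm⟩

theorem in_iff_of_same (hg1 : 1 ≤ g1) (hg2 : 1 ≤ g2) {f f' : ℕ → ℕ}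
    (h : Same up g1 g2 n f f') (c y : ℕ) : In up g1 g2 n f c y ↔ In up g1 g2 n f' c y :=
  ⟨in_of_same hg1 hg2 h _ c y le_rfl, in_of_same hg1 hg2 (same_symm h) _ c y le_rfl⟩

theorem same_of (hg1 : 1 ≤ g1) (hg2 : 1 ≤ g2) {f f' : ℕ → ℕ}
    (H1 : ∀ x, x < n → ¬ In up g1 g2 n f x (f x) → f' x = f x)
    (H2 : ∀ x, x < n → In up g1 g2 n f x (f x) → In up g1 g2 n f x (f' x)) :
    Same up g1 g2 n f f' := by
  have hb : ∀ c y, In up g1 g2 n f' c y → In up g1 g2 n f c y := by
    rintro c y ⟨a, b, h1, h2, h3, h4, h5, h6⟩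
    by_cases ha : In up g1 g2 n f a (f a)
    · exact In_mono (by omega) h4.le (H2 a (by omega) ha)
    · by_cases hb : In up g1 g2 n f b (f b)
      · exact In_mono (by omega) h5.le (H2 b h3 hb)
      · rw [H1 a (by omega) ha] at h4 h6
        rw [H1 b h3 hb] at h5 h6
        exact ⟨a, b, h1, h2, h3, h4, h5, h6⟩
  have hf : ∀ m c y, n - c ≤ m → In up g1 g2 n f c y → In up g1 g2 n f' c y := by
    intro m
    induction m with
    | zero =>
      rintro c y hm ⟨a, b, h1, h2, h3, _⟩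
      omega
    | succ m ih =>
      intro c y hm hI
      obtain ⟨a, b, h1, h2, h3, h4, h5, h6⟩ := hI
      by_cases ha : In up g1 g2 n f a (f a)
      · exact In_mono (by omega) h4.le (ih a (f a) (by omega) ha)
      · by_cases hb : In up g1 g2 n f b (f b)
        · exact In_mono (by omega) h5.le (ih b (f b) (by omega) hb)
        · refine ⟨a, b, h1, h2, h3, ?_, ?_, ?_⟩
          · rw [H1 a (by omega) ha]; exact h4
          · rw [H1 b h3 hb]; exact h5
          · rw [H1 a (by omega) ha, H1 b h3 hb]; exact h6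
  intro x hx
  refine ⟨⟨fun h => hf _ x _ le_rfl (H2 x hx h), fun h => ?_⟩, H1 x hx⟩
  by_contra hcon
  rw [H1 x hx hcon] at h
  exact hcon (hb _ _ h)

/-- values of a permutation as a function on `ℕ` -/
def V (w : Equiv.Perm (Fin n)) (x : ℕ) : ℕ := if h : x < n then (w ⟨x, h⟩ : ℕ) else 0

theorem V_fin (w : Equiv.Perm (Fin n)) (x : Fin n) : V w x = (w x : ℕ) := by
  unfold V
  rw [dif_pos x.isLt]

theorem V_inj (w : Equiv.Perm (Fin n)) {x y : ℕ} (hx : x < n) (hy : y < n) (h : V w x = V w y) :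
    x = y := by
  unfold V at h
  rw [dif_pos hx, dif_pos hy] at h
  have := w.injective (Fin.ext h)
  simpa using this

theorem V_surj (w : Equiv.Perm (Fin n)) {y : ℕ} (hy : y < n) : ∃ x, x < n ∧ V w x = y := by
  refine ⟨w.symm ⟨y, hy⟩, (w.symm ⟨y, hy⟩).isLt, ?_⟩
  rw [V_fin]
  simp

theorem V_lt (w : Equiv.Perm (Fin n)) {x : ℕ} (hx : x < n) : V w x < n := by
  unfold V
  rw [dif_pos hx]
  exact (w ⟨x, hx⟩).isLt

theorem V_ext {w w' : Equiv.Perm (Fin n)} (h : ∀ x, x < n → V w x = V w' x) : w = w' := by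
  apply Equiv.ext
  intro x
  have := h x x.isLt
  rw [V_fin, V_fin] at this
  exact Fin.ext this

open Classical in
/-- the outside points -/
noncomputable def out (up : Bool) (g1 g2 : ℕ) (w : Equiv.Perm (Fin n)) : Fin n → Option ℕ :=
  fun x => if In up g1 g2 n (V w) x (V w x) then none else some (V w x)

theorem out_eq_iff (w w' : Equiv.Perm (Fin n)) :
    out up g1 g2 w = out up g1 g2 w' ↔ Same up g1 g2 n (V w) (V w') := by
  constructor
  · intro h x hx
    have h1 := congrFun h ⟨x, hx⟩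
    unfold out at h1
    simp only at h1
    by_cases h2 : In up g1 g2 n (V w) x (V w x)
    · by_cases h3 : In up g1 g2 n (V w') x (V w' x)
      · exact ⟨⟨fun _ => h3, fun _ => h2⟩, fun h4 => absurd h2 h4⟩
      · rw [if_pos h2, if_neg h3] at h1
        exact absurd h1 (by simp)
    · by_cases h3 : In up g1 g2 n (V w') x (V w' x)
      · rw [if_neg h2, if_pos h3] at h1
        exact absurd h1 (by simp)
      · rw [if_neg h2, if_neg h3] at h1
        simp only [Option.some.injEq] at h1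
        exact ⟨⟨fun h => absurd h h2, fun h => absurd h h3⟩, fun _ => h1.symm⟩
  · intro h
    funext x
    obtain ⟨h1, h2⟩ := h x x.isLt
    unfold out
    by_cases h3 : In up g1 g2 n (V w) x (V w x)
    · rw [if_pos h3, if_pos (h1.mp h3)]
    · rw [if_neg h3, if_neg (fun h4 => h3 (h1.mpr h4)), h2 h3]

/-- avoidance of `12 ⊕ σ` -/
def Av12 (up : Bool) (g1 g2 : ℕ) (w : Equiv.Perm (Fin n)) : Prop :=
  ∀ i j, i < j → j < n → V w i < V w j → ¬ In up g1 g2 n (V w) j (V w j)

/-- avoidance of `21 ⊕ σ` -/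
def Av21 (up : Bool) (g1 g2 : ℕ) (w : Equiv.Perm (Fin n)) : Prop :=
  ∀ i j, i < j → j < n → V w j < V w i → ¬ In up g1 g2 n (V w) j (V w i)

theorem inj12 (hg1 : 1 ≤ g1) (hg2 : 1 ≤ g2) {w w' : Equiv.Perm (Fin n)}
    (hw : Av12 up g1 g2 w) (hw' : Av12 up g1 g2 w') (h : out up g1 g2 w = out up g1 g2 w') :
    w = w' := by
  rw [out_eq_iff] at h
  have hin := in_iff_of_same hg1 hg2 h
  have main : ∀ w w' : Equiv.Perm (Fin n), Av12 up g1 g2 w → Av12 up g1 g2 w' →
      Same up g1 g2 n (V w) (V w') → ∀ x, x < n → (∀ z, z < x → V w z = V w' z) →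
      ¬ V w x < V w' x := by
    intro w w' hw hw' h x hx hz hlt
    have hin := in_iff_of_same hg1 hg2 h
    have hxin : In up g1 g2 n (V w) x (V w x) := by
      by_contra hcon
      have := (h x hx).2 hcon
      omega
    have hxin' : In up g1 g2 n (V w') x (V w' x) := (h x hx).1.mp hxin
    obtain ⟨k, hk, hkv⟩ := V_surj w (V_lt w' hx)
    have hkx : x < k := by
      by_contra hcon
      push Not at hcon
      rcases Nat.eq_or_lt_of_le hcon with h1 | h1
      · subst h1
        omega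
      · have := hz k h1
        rw [this] at hkv
        have := V_inj w' hk hx hkv
        omega
    apply hw x k hkx hk (by omega)
    -- k is inside
    by_contra hcon
    have h2 := (h k hk).2 hcon
    rw [hkv] at h2
    have := V_inj w' hk hx h2
    omega
  apply V_ext
  intro x
  induction x using Nat.strong_induction_on with
  | _ x ih =>
    intro hx
    have hz : ∀ z, z < x → V w z = V w' z := fun z hz => ih z hz (by omega)
    have h1 := main w w' hw hw' h x hx hz
    have h2 := main w' w hw' hw (same_symm h) x hx (fun z hz' => (hz z hz').symm)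
    omega

theorem inj21 (hg1 : 1 ≤ g1) (hg2 : 1 ≤ g2) {w w' : Equiv.Perm (Fin n)}
    (hw : Av21 up g1 g2 w) (hw' : Av21 up g1 g2 w') (h : out up g1 g2 w = out up g1 g2 w') :
    w = w' := by
  rw [out_eq_iff] at h
  have main : ∀ w w' : Equiv.Perm (Fin n), Av21 up g1 g2 w → Av21 up g1 g2 w' →
      Same up g1 g2 n (V w) (V w') → ∀ x, x < n → (∀ z, x < z → z < n → V w z = V w' z) →
      ¬ V w x < V w' x := by
    intro w w' hw hw' h x hx hz hlt
    have hin := in_iff_of_same hg1 hg2 h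
    have hxin : In up g1 g2 n (V w) x (V w x) := by
      by_contra hcon
      have := (h x hx).2 hcon
      omega
    have hxin' : In up g1 g2 n (V w') x (V w' x) := (h x hx).1.mp hxin
    obtain ⟨k, hk, hkv⟩ := V_surj w (V_lt w' hx)
    have hkx : k < x := by
      by_contra hcon
      push Not at hcon
      rcases Nat.eq_or_lt_of_le hcon with h1 | h1
      · subst h1
        omega
      · have := hz k h1 hk
        rw [this] at hkv
        have := V_inj w' hk hx hkv
        omega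
    apply hw k x hkx hx (by omega)
    rw [hkv, hin]
    exact hxin'
  apply V_ext
  have : ∀ m x, n - x ≤ m → x < n → V w x = V w' x := by
    intro m
    induction m with
    | zero => intro x h1 h2; omega
    | succ m ih =>
      intro x hm hx
      have hz : ∀ z, x < z → z < n → V w z = V w' z := fun z hz hzn => ih z (by omega) hzn
      have h1 := main w w' hw hw' h x hx hz
      have h2 := main w' w hw' hw (same_symm h) x hx (fun z hz' hzn => (hz z hz' hzn).symm)
      omega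
  exact fun x hx => this _ x le_rfl hx

/-- potential -/
def Phi (w : Equiv.Perm (Fin n)) : ℤ := ∑ x : Fin n, (x : ℤ) * (V w x : ℤ)

theorem V_swap (w : Equiv.Perm (Fin n)) (i j : Fin n) (x : Fin n) :
    V (w * Equiv.swap i j) x = V w (Equiv.swap i j x) := by
  rw [V_fin, V_fin]
  rfl

theorem Phi_swap (w : Equiv.Perm (Fin n)) (i j : Fin n) (hij : i < j) :
    Phi w - Phi (w * Equiv.swap i j) = ((j : ℤ) - i) * ((V w j : ℤ) - V w i) := by
  unfold Phi
  rw [← sum_sub_distrib]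
  rw [← sum_subset (subset_univ {i, j})]
  · rw [sum_pair hij.ne, V_swap, V_swap, Equiv.swap_apply_left, Equiv.swap_apply_right]
    ring
  · intro x _ hx
    rw [mem_insert, mem_singleton] at hx
    push Not at hx
    rw [V_swap, Equiv.swap_apply_of_ne_of_ne hx.1 hx.2]
    ring

theorem out_swap (hg1 : 1 ≤ g1) (hg2 : 1 ≤ g2) (w : Equiv.Perm (Fin n)) (i j : Fin n)
    (hij : i < j) (h1 : In up g1 g2 n (V w) j (V w i)) (h2 : In up g1 g2 n (V w) j (V w j)) :
    out up g1 g2 (w * Equiv.swap i j) = out up g1 g2 w := by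
  symm
  rw [out_eq_iff]
  have hij' : (i : ℕ) ≤ j := le_of_lt hij
  apply same_of hg1 hg2
  · intro x hx hI
    have hxi : (⟨x, hx⟩ : Fin n) ≠ i := by
      rintro rfl
      exact hI (In_mono hij' le_rfl h1)
    have hxj : (⟨x, hx⟩ : Fin n) ≠ j := by
      rintro rfl
      exact hI h2
    have := V_swap w i j ⟨x, hx⟩
    rw [Equiv.swap_apply_of_ne_of_ne hxi hxj] at this
    exact this
  · intro x hx hI
    have hs := V_swap w i j ⟨x, hx⟩
    simp only at hs
    rw [hs]
    by_cases hxi : (⟨x, hx⟩ : Fin n) = i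
    · rw [hxi, Equiv.swap_apply_left]
      have : x = (i : ℕ) := by rw [← hxi]
      rw [this]
      exact In_mono hij' le_rfl h2
    · by_cases hxj : (⟨x, hx⟩ : Fin n) = j
      · rw [hxj, Equiv.swap_apply_right]
        have : x = (j : ℕ) := by rw [← hxj]
        rw [this]
        exact h1
      · rw [Equiv.swap_apply_of_ne_of_ne hxi hxj]
        exact hI

theorem exists12 (hg1 : 1 ≤ g1) (hg2 : 1 ≤ g2) (w : Equiv.Perm (Fin n)) :
    ∃ w', out up g1 g2 w' = out up g1 g2 w ∧ Av12 up g1 g2 w' := by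
  classical
  obtain ⟨w', hw', hmin⟩ := exists_min_image
    (univ.filter (fun w' : Equiv.Perm (Fin n) => out up g1 g2 w' = out up g1 g2 w)) Phi
    ⟨w, mem_filter.mpr ⟨mem_univ _, rfl⟩⟩
  rw [mem_filter] at hw'
  refine ⟨w', hw'.2, ?_⟩
  intro i j hij hj hlt hI
  obtain ⟨i', hi'⟩ : ∃ i' : Fin n, i' = ⟨i, by omega⟩ := ⟨_, rfl⟩
  obtain ⟨j', hj'⟩ : ∃ j' : Fin n, j' = ⟨j, hj⟩ := ⟨_, rfl⟩
  have ei : (i' : ℕ) = i := by rw [hi']
  have ej : (j' : ℕ) = j := by rw [hj']
  have hij' : i' < j' := by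
    rw [Fin.lt_def, ei, ej]
    exact hij
  have h1 : out up g1 g2 (w' * Equiv.swap i' j') = out up g1 g2 w' := by
    apply out_swap hg1 hg2 w' i' j' hij'
    · rw [ei, ej]
      exact In_mono le_rfl hlt.le hI
    · rw [ej]
      exact hI
  have h2 := hmin (w' * Equiv.swap i' j') (mem_filter.mpr ⟨mem_univ _, h1.trans hw'.2⟩)
  have h3 := Phi_swap w' i' j' hij'
  rw [ei, ej] at h3
  have h4 : (0 : ℤ) < ((j : ℤ) - i) * ((V w' j : ℤ) - V w' i) := by
    apply mul_pos
    · omega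
    · omega
  linarith

theorem exists21 (hg1 : 1 ≤ g1) (hg2 : 1 ≤ g2) (w : Equiv.Perm (Fin n)) :
    ∃ w', out up g1 g2 w' = out up g1 g2 w ∧ Av21 up g1 g2 w' := by
  classical
  obtain ⟨w', hw', hmax⟩ := exists_max_image
    (univ.filter (fun w' : Equiv.Perm (Fin n) => out up g1 g2 w' = out up g1 g2 w)) Phi
    ⟨w, mem_filter.mpr ⟨mem_univ _, rfl⟩⟩
  rw [mem_filter] at hw'
  refine ⟨w', hw'.2, ?_⟩
  intro i j hij hj hlt hI
  obtain ⟨i', hi'⟩ : ∃ i' : Fin n, i' = ⟨i, by omega⟩ := ⟨_, rfl⟩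
  obtain ⟨j', hj'⟩ : ∃ j' : Fin n, j' = ⟨j, hj⟩ := ⟨_, rfl⟩
  have ei : (i' : ℕ) = i := by rw [hi']
  have ej : (j' : ℕ) = j := by rw [hj']
  have hij' : i' < j' := by
    rw [Fin.lt_def, ei, ej]
    exact hij
  have h1 : out up g1 g2 (w' * Equiv.swap i' j') = out up g1 g2 w' := by
    apply out_swap hg1 hg2 w' i' j' hij'
    · rw [ei, ej]
      exact hI
    · rw [ej]
      exact In_mono le_rfl hlt.le hI
  have h2 := hmax (w' * Equiv.swap i' j') (mem_filter.mpr ⟨mem_univ _, h1.trans hw'.2⟩)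
  have h3 := Phi_swap w' i' j' hij'
  rw [ei, ej] at h3
  have h4 : (0 : ℤ) < ((j : ℤ) - i) * ((V w' i : ℤ) - V w' j) := by
    apply mul_pos
    · omega
    · omega
  nlinarith

open Classical in
/-- **Theorem A.** -/
theorem card_eq (hg1 : 1 ≤ g1) (hg2 : 1 ≤ g2) (Q : (Fin n → Option ℕ) → Prop) :
    #{w : Equiv.Perm (Fin n) | Av12 up g1 g2 w ∧ Q (out up g1 g2 w)} =
    #{w : Equiv.Perm (Fin n) | Av21 up g1 g2 w ∧ Q (out up g1 g2 w)} := by
  rw [← card_image_of_injOn (f := out up g1 g2)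
      (s := {w : Equiv.Perm (Fin n) | Av12 up g1 g2 w ∧ Q (out up g1 g2 w)}),
    ← card_image_of_injOn (f := out up g1 g2)
      (s := {w : Equiv.Perm (Fin n) | Av21 up g1 g2 w ∧ Q (out up g1 g2 w)})]
  · congr 1
    ext o
    simp only [mem_image, mem_filter, mem_univ, true_and]
    constructor
    · rintro ⟨w, ⟨h1, h2⟩, rfl⟩
      obtain ⟨w', h3, h4⟩ := exists21 (up := up) hg1 hg2 w
      exact ⟨w', ⟨h4, by rw [h3]; exact h2⟩, h3⟩
    · rintro ⟨w, ⟨h1, h2⟩, rfl⟩
      obtain ⟨w', h3, h4⟩ := exists12 (up := up) hg1 hg2 w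
      exact ⟨w', ⟨h4, by rw [h3]; exact h2⟩, h3⟩
  · intro w hw w' hw' h
    simp only [coe_filter, mem_univ, true_and, Set.mem_ofPred_eq] at hw hw'
    exact inj21 hg1 hg2 hw.1 hw'.1 h
  · intro w hw w' hw' h
    simp only [coe_filter, mem_univ, true_and, Set.mem_ofPred_eq] at hw hw'
    exact inj12 hg1 hg2 hw.1 hw'.1 h

end R123.Gap
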