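import Pool.Agent.R123.Gap.Basic

/-!
The gapped version: `1□2 ⊕ σ` and `2□1 ⊕ σ`.
-/

namespace R123.Gap

open Finset

variable {up : Bool} {g2 n : ℕ}

/-- avoidance of `1□2 ⊕ σ` -/
def AvG12 (up : Bool) (g2 : ℕ) (w : Equiv.Perm (Fin n)) : Prop :=
  ∀ i j, i + 2 ≤ j → j < n → V w i < V w j → ¬ In up 1 g2 n (V w) j (V w j)

/-- avoidance of `2□1 ⊕ σ` -/
def AvG21 (up : Bool) (g2 : ℕ) (w : Equiv.Perm (Fin n)) : Prop :=
  ∀ i j, i + 2 ≤ j → j < n → V w j < V w i → ¬ In up 1 g2 n (V w) j (V w i)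

theorem height {f : ℕ → ℕ} {c y : ℕ} (h : In up 1 g2 n f (c + 1) (f (c + 1)))
    (hy : In up 1 g2 n f c y) : In up 1 g2 n f (c + 1) y := by
  obtain ⟨a, b, h1, h2, h3, h4, h5, h6⟩ := hy
  by_cases ha : a = c + 1
  · subst ha
    exact In_mono le_rfl h4.le h
  · exact ⟨a, b, by omega, h2, h3, h4, h5, h6⟩

/-- the product of the transpositions `(c c+1)`, `c ∈ S` -/
def th (S : Finset ℕ) (x : ℕ) : ℕ :=
  if x ∈ S then x + 1 else if 1 ≤ x ∧ x - 1 ∈ S then x - 1 else x

theorem th_cases (S : Finset ℕ) (x : ℕ) :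
    (x ∈ S ∧ th S x = x + 1) ∨ (x ∉ S ∧ 1 ≤ x ∧ x - 1 ∈ S ∧ th S x = x - 1) ∨
    (x ∉ S ∧ ¬ (1 ≤ x ∧ x - 1 ∈ S) ∧ th S x = x) := by
  unfold th
  by_cases h1 : x ∈ S
  · left
    exact ⟨h1, if_pos h1⟩
  · right
    by_cases h2 : 1 ≤ x ∧ x - 1 ∈ S
    · left
      rw [if_neg h1, if_pos h2]
      exact ⟨h1, h2.1, h2.2, rfl⟩
    · right
      rw [if_neg h1, if_neg h2]
      exact ⟨h1, h2, rfl⟩

/-- `S` is a set of disjoint adjacent pairs of positions -/
def Valid (n : ℕ) (S : Finset ℕ) : Prop := ∀ c ∈ S, c + 1 < n ∧ c + 1 ∉ S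

theorem th_invol {S : Finset ℕ} (hS : Valid n S) (x : ℕ) : th S (th S x) = x := by
  rcases th_cases S x with ⟨h1, h2⟩ | ⟨h1, h2, h3, h4⟩ | ⟨h1, h2, h3⟩
  · rw [h2]
    unfold th
    rw [if_neg (hS x h1).2, if_pos ⟨by omega, by simpa using h1⟩]
    omega
  · rw [h4]
    unfold th
    rw [if_pos h3]
    omega
  · rw [h3, h3]

theorem th_lt {S : Finset ℕ} (hS : Valid n S) {x : ℕ} (hx : x < n) : th S x < n := by
  rcases th_cases S x with ⟨h1, h2⟩ | ⟨h1, h2, h3, h4⟩ | ⟨h1, h2, h3⟩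
  · rw [h2]; exact (hS x h1).1
  · rw [h4]; omega
  · rw [h3]; exact hx

theorem th_inj {S : Finset ℕ} (hS : Valid n S) {x y : ℕ} (h : th S x = th S y) : x = y := by
  rw [← th_invol hS x, h, th_invol hS y]

/-- the permutation `th S` -/
def T (S : Finset ℕ) (hS : Valid n S) : Equiv.Perm (Fin n) :=
  Function.Involutive.toPerm (fun x : Fin n => ⟨th S x, th_lt hS x.isLt⟩) (by
    intro x
    apply Fin.ext
    exact th_invol hS x)

theorem V_T (w : Equiv.Perm (Fin n)) {S : Finset ℕ} (hS : Valid n S) {x : ℕ} (hx : x < n) :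
    V (w * T S hS) x = V w (th S x) := by
  have h1 := V_fin (w * T S hS) ⟨x, hx⟩
  have h2 := V_fin w (T S hS ⟨x, hx⟩)
  have h3 : ((T S hS ⟨x, hx⟩ : Fin n) : ℕ) = th S x := rfl
  rw [h3] at h2
  rw [h2]
  exact h1

theorem T_T {S : Finset ℕ} (hS : Valid n S) (w : Equiv.Perm (Fin n)) :
    w * T S hS * T S hS = w := by
  apply V_ext
  intro x hx
  rw [V_T _ hS hx, V_T _ hS (th_lt hS hx), th_invol hS]

/-- position `x` is inside -/
def Ins (up : Bool) (g2 : ℕ) (w : Equiv.Perm (Fin n)) (x : ℕ) : Prop :=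
  In up 1 g2 n (V w) x (V w x)

/-- all pairs of `S` are inside -/
def InsS (up : Bool) (g2 : ℕ) (w : Equiv.Perm (Fin n)) (S : Finset ℕ) : Prop :=
  ∀ c ∈ S, Ins up g2 w c ∧ Ins up g2 w (c + 1)

theorem same_T (hg2 : 1 ≤ g2) (w : Equiv.Perm (Fin n)) {S : Finset ℕ} (hS : Valid n S)
    (hI : InsS up g2 w S) : Same up 1 g2 n (V w) (V (w * T S hS)) := by
  apply same_of le_rfl hg2
  · intro x hx hx2
    rw [V_T w hS hx]
    rcases th_cases S x with ⟨h1, h2⟩ | ⟨h1, h2, h3, h4⟩ | ⟨h1, h2, h3⟩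
    · exact absurd (hI x h1).1 hx2
    · have := (hI (x - 1) h3).2
      rw [show x - 1 + 1 = x by omega] at this
      exact absurd this hx2
    · rw [h3]
  · intro x hx hx2
    rw [V_T w hS hx]
    rcases th_cases S x with ⟨h1, h2⟩ | ⟨h1, h2, h3, h4⟩ | ⟨h1, h2, h3⟩
    · rw [h2]
      exact In_mono (by omega) le_rfl (hI x h1).2
    · rw [h4]
      have h5 := (hI (x - 1) h3).1
      have h6 := (hI (x - 1) h3).2
      have h7 := height h6 h5
      rw [show x - 1 + 1 = x by omega] at h7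
      exact h7
    · rw [h3]
      exact hx2

theorem ins_th {w : Equiv.Perm (Fin n)} {S : Finset ℕ} (hI : InsS up g2 w S) {x : ℕ}
    (h : Ins up g2 w x) : Ins up g2 w (th S x) := by
  rcases th_cases S x with ⟨h1, h2⟩ | ⟨h1, h2, h3, h4⟩ | ⟨h1, h2, h3⟩
  · rw [h2]; exact (hI x h1).2
  · rw [h4]; exact (hI (x - 1) h3).1
  · rw [h3]; exact h

theorem in_th {w : Equiv.Perm (Fin n)} {S : Finset ℕ} (hI : InsS up g2 w S) {x y : ℕ}
    (h : In up 1 g2 n (V w) x y) : In up 1 g2 n (V w) (th S x) y := by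
  rcases th_cases S x with ⟨h1, h2⟩ | ⟨h1, h2, h3, h4⟩ | ⟨h1, h2, h3⟩
  · rw [h2]; exact height (hI x h1).2 h
  · rw [h4]; exact In_mono (by omega) le_rfl h
  · rw [h3]; exact h

open Classical in
/-- adjacent inside ascents -/
noncomputable def AscS (up : Bool) (g2 : ℕ) (w : Equiv.Perm (Fin n)) : Finset ℕ :=
  (range n).filter (fun c => c + 1 < n ∧ Ins up g2 w c ∧ Ins up g2 w (c + 1) ∧
    V w c < V w (c + 1))

open Classical in
/-- adjacent inside descents -/
noncomputable def DescS (up : Bool) (g2 : ℕ) (w : Equiv.Perm (Fin n)) : Finset ℕ :=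
  (range n).filter (fun c => c + 1 < n ∧ Ins up g2 w c ∧ Ins up g2 w (c + 1) ∧
    V w (c + 1) < V w c)

theorem mem_Asc {w : Equiv.Perm (Fin n)} {c : ℕ} : c ∈ AscS up g2 w ↔
    c + 1 < n ∧ Ins up g2 w c ∧ Ins up g2 w (c + 1) ∧ V w c < V w (c + 1) := by
  simp only [AscS, mem_filter, mem_range]
  constructor
  · rintro ⟨_, h⟩; exact h
  · intro h; exact ⟨by omega, h⟩

theorem mem_Desc {w : Equiv.Perm (Fin n)} {c : ℕ} : c ∈ DescS up g2 w ↔
    c + 1 < n ∧ Ins up g2 w c ∧ Ins up g2 w (c + 1) ∧ V w (c + 1) < V w c := by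
  simp only [DescS, mem_filter, mem_range]
  constructor
  · rintro ⟨_, h⟩; exact h
  · intro h; exact ⟨by omega, h⟩

theorem valid_Asc {w : Equiv.Perm (Fin n)} (hw : AvG12 up g2 w) : Valid n (AscS up g2 w) := by
  intro c hc
  have h1 := mem_Asc.mp hc
  refine ⟨h1.1, fun h => ?_⟩
  have h2 := mem_Asc.mp h
  exact hw c (c + 1 + 1) (by omega) h2.1 (by omega) h2.2.2.1

theorem valid_Desc {w : Equiv.Perm (Fin n)} (hw : AvG21 up g2 w) : Valid n (DescS up g2 w) := by
  intro c hc
  have h1 := mem_Desc.mp hc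
  refine ⟨h1.1, fun h => ?_⟩
  have h2 := mem_Desc.mp h
  exact hw c (c + 1 + 1) (by omega) h2.1 (by omega) (height h2.2.2.1 (height h1.2.2.1 h1.2.1))

theorem insS_Asc (w : Equiv.Perm (Fin n)) : InsS up g2 w (AscS up g2 w) := by
  intro c hc
  have h1 := mem_Asc.mp hc
  exact ⟨h1.2.1, h1.2.2.1⟩

theorem insS_Desc (w : Equiv.Perm (Fin n)) : InsS up g2 w (DescS up g2 w) := by
  intro c hc
  have h1 := mem_Desc.mp hc
  exact ⟨h1.2.1, h1.2.2.1⟩

/-- geometry of `th S` on two positions `i < j` -/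
theorem th_pair {S : Finset ℕ} (hS : Valid n S) {i j : ℕ} (hij : i < j) :
    th S i + 2 ≤ th S j ∨ (th S i + 1 = th S j ∧ th S i ∉ S) ∨
    (i ∈ S ∧ j = i + 1 ∧ th S i = i + 1 ∧ th S j = i) := by
  have hne : th S i ≠ th S j := fun h => by have := th_inj hS h; omega
  rcases th_cases S i with ⟨h1, h2⟩ | ⟨h1, h2, h3, h4⟩ | ⟨h1, h2, h3⟩
  · rcases th_cases S j with ⟨k1, k2⟩ | ⟨k1, k2, k3, k4⟩ | ⟨k1, k2, k3⟩
    · by_cases h : th S i + 2 ≤ th S j
      · exact Or.inl h
      · right; left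
        refine ⟨by omega, ?_⟩
        rw [h2]
        exact (hS i h1).2
    · by_cases h : j = i + 1
      · right; right
        exact ⟨h1, h, h2, by omega⟩
      · by_cases h' : th S i + 2 ≤ th S j
        · exact Or.inl h'
        · right; left
          refine ⟨by omega, ?_⟩
          rw [h2]
          exact (hS i h1).2
    · by_cases h' : th S i + 2 ≤ th S j
      · exact Or.inl h'
      · by_cases h : j = i + 1
        · exfalso
          apply k2
          exact ⟨by omega, by rw [h]; simpa using h1⟩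
        · right; left
          refine ⟨by omega, ?_⟩
          rw [h2]
          exact (hS i h1).2
  · rcases th_cases S j with ⟨k1, k2⟩ | ⟨k1, k2, k3, k4⟩ | ⟨k1, k2, k3⟩
    · left; omega
    · by_cases h : j = i + 1
      · exfalso
        apply h1
        rw [h] at k3
        simpa using k3
      · left
        omega
    · left
      omega
  · rcases th_cases S j with ⟨k1, k2⟩ | ⟨k1, k2, k3, k4⟩ | ⟨k1, k2, k3⟩
    · left; omega
    · by_cases h : j = i + 1
      · exfalso
        apply h1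
        rw [h] at k3
        simpa using k3
      · by_cases h' : th S i + 2 ≤ th S j
        · exact Or.inl h'
        · right; left
          exact ⟨by omega, by rw [h3]; exact h1⟩
    · by_cases h' : th S i + 2 ≤ th S j
      · exact Or.inl h'
      · right; left
        exact ⟨by omega, by rw [h3]; exact h1⟩

theorem th_far {S : Finset ℕ} (hS : Valid n S) {i j : ℕ} (hij : i + 2 ≤ j) :
    th S i < th S j := by
  rcases th_pair hS (show i < j by omega) with h | ⟨h, _⟩ | ⟨_, h, _⟩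
  · omega
  · omega
  · omega

theorem th_near {S : Finset ℕ} (hS : Valid n S) {c : ℕ} (hc : c ∉ S) :
    th S c < th S (c + 1) := by
  rcases th_pair hS (show c < c + 1 by omega) with h | ⟨h, _⟩ | ⟨h, _⟩
  · omega
  · omega
  · exact absurd h hc

/-- the condition on the outside points -/
def Q (S : Finset ℕ) (o : Fin n → Option ℕ) : Prop :=
  Valid n S ∧ ∀ c ∈ S, ∀ h : c + 1 < n, o ⟨c, by omega⟩ = none ∧ o ⟨c + 1, h⟩ = none

theorem out_none (w : Equiv.Perm (Fin n)) (x : ℕ) (hx : x < n) :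
    out up 1 g2 w ⟨x, hx⟩ = none ↔ Ins up g2 w x := by
  classical
  unfold out Ins
  simp only
  split_ifs with h
  · simp [h]
  · simp [h]

theorem Q_iff (w : Equiv.Perm (Fin n)) (S : Finset ℕ) :
    Q S (out up 1 g2 w) ↔ Valid n S ∧ InsS up g2 w S := by
  unfold Q
  constructor
  · rintro ⟨h1, h2⟩
    refine ⟨h1, fun c hc => ?_⟩
    have h3 := h2 c hc (h1 c hc).1
    rw [out_none, out_none] at h3
    exact h3
  · rintro ⟨h1, h2⟩
    refine ⟨h1, fun c hc h => ?_⟩
    rw [out_none, out_none]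
    exact h2 c hc

section
variable (hg2 : 1 ≤ g2)
include hg2

theorem to12 {w : Equiv.Perm (Fin n)} (hw : AvG12 up g2 w) {S : Finset ℕ} (hS : Valid n S)
    (hA : AscS up g2 w = S) : Av12 up 1 g2 (w * T S hS) ∧ InsS up g2 (w * T S hS) S := by
  have hI : InsS up g2 w S := by rw [← hA]; exact insS_Asc w
  have hs := same_T hg2 w hS hI
  have hin := in_iff_of_same le_rfl hg2 hs
  have hins : ∀ x, x < n → (Ins up g2 w x ↔ Ins up g2 (w * T S hS) x) := fun x hx => (hs x hx).1
  refine ⟨?_, fun c hc => ?_⟩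
  · intro i j hij hj hlt hI2
    have hi : i < n := by omega
    have hinsj : Ins up g2 w j := (hins j hj).mpr hI2
    have hinsi : Ins up g2 w i := (hins i hi).mpr (In_mono hij.le hlt.le hI2)
    rw [V_T w hS hi, V_T w hS hj] at hlt
    rcases th_pair hS hij with h | ⟨h, h'⟩ | ⟨h, h1, h2, h3⟩
    · exact hw _ _ h (th_lt hS hj) hlt (ins_th hI hinsj)
    · apply h'
      have h9 : th S i ∈ AscS up g2 w := by
        rw [mem_Asc, h]
        exact ⟨th_lt hS hj, ins_th hI hinsi, ins_th hI hinsj, hlt⟩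
      rwa [hA] at h9
    · rw [h2, h3] at hlt
      rw [← hA] at h
      have := (mem_Asc.mp h).2.2.2
      omega
  · have h1 := hS c hc
    have h2 := hI c hc
    exact ⟨(hins c (by omega)).mp h2.1, (hins (c + 1) h1.1).mp h2.2⟩

theorem from12 {v : Equiv.Perm (Fin n)} (hv : Av12 up 1 g2 v) {S : Finset ℕ} (hS : Valid n S)
    (hI : InsS up g2 v S) : AvG12 up g2 (v * T S hS) ∧ AscS up g2 (v * T S hS) = S := by
  have hs := same_T hg2 v hS hI
  have hins : ∀ x, x < n → (Ins up g2 v x ↔ Ins up g2 (v * T S hS) x) := fun x hx => (hs x hx).1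
  refine ⟨?_, ?_⟩
  · intro i j hij hj hlt hI2
    have hi : i < n := by omega
    have hinsj : Ins up g2 v j := (hins j hj).mpr hI2
    rw [V_T v hS hi, V_T v hS hj] at hlt
    exact hv _ _ (th_far hS hij) (th_lt hS hj) hlt (ins_th hI hinsj)
  · ext c
    rw [mem_Asc]
    constructor
    · rintro ⟨h1, h2, h3, h4⟩
      by_contra hc
      rw [V_T v hS (by omega : c < n), V_T v hS h1] at h4
      exact hv _ _ (th_near hS hc) (th_lt hS h1) h4 (ins_th hI ((hins _ h1).mpr h3))
    · intro hc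
      have h1 := hS c hc
      have h2 := hI c hc
      refine ⟨h1.1, (hins c (by omega)).mp h2.1, (hins _ h1.1).mp h2.2, ?_⟩
      rw [V_T v hS (by omega : c < n), V_T v hS h1.1]
      have e1 : th S c = c + 1 := if_pos hc
      have e2 : th S (c + 1) = c := by rw [← e1]; exact th_invol hS c
      rw [e1, e2]
      by_contra hcon
      have hne : V v c ≠ V v (c + 1) := fun h => by
        have := V_inj v (by omega) h1.1 h
        omega
      exact hv c (c + 1) (by omega) h1.1 (by omega) h2.2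

theorem to21 {w : Equiv.Perm (Fin n)} (hw : AvG21 up g2 w) {S : Finset ℕ} (hS : Valid n S)
    (hA : DescS up g2 w = S) : Av21 up 1 g2 (w * T S hS) ∧ InsS up g2 (w * T S hS) S := by
  have hI : InsS up g2 w S := by rw [← hA]; exact insS_Desc w
  have hs := same_T hg2 w hS hI
  have hin := in_iff_of_same le_rfl hg2 hs
  have hins : ∀ x, x < n → (Ins up g2 w x ↔ Ins up g2 (w * T S hS) x) := fun x hx => (hs x hx).1
  refine ⟨?_, fun c hc => ?_⟩
  · intro i j hij hj hlt hI2
    have hi : i < n := by omega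
    have hinsj : Ins up g2 w j := (hins j hj).mpr (In_mono le_rfl hlt.le hI2)
    have hinsi : Ins up g2 w i := (hins i hi).mpr (In_mono hij.le le_rfl hI2)
    rw [← hin] at hI2
    rw [V_T w hS hi] at hI2
    rw [V_T w hS hi, V_T w hS hj] at hlt
    rcases th_pair hS hij with h | ⟨h, h'⟩ | ⟨h, h1, h2, h3⟩
    · exact hw _ _ h (th_lt hS hj) hlt (in_th hI hI2)
    · apply h'
      have h9 : th S i ∈ DescS up g2 w := by
        rw [mem_Desc, h]
        exact ⟨th_lt hS hj, ins_th hI hinsi, ins_th hI hinsj, hlt⟩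
      rwa [hA] at h9
    · rw [h2, h3] at hlt
      rw [← hA] at h
      have := (mem_Desc.mp h).2.2.2
      omega
  · have h1 := hS c hc
    have h2 := hI c hc
    exact ⟨(hins c (by omega)).mp h2.1, (hins (c + 1) h1.1).mp h2.2⟩

theorem from21 {v : Equiv.Perm (Fin n)} (hv : Av21 up 1 g2 v) {S : Finset ℕ} (hS : Valid n S)
    (hI : InsS up g2 v S) : AvG21 up g2 (v * T S hS) ∧ DescS up g2 (v * T S hS) = S := by
  have hs := same_T hg2 v hS hI
  have hin := in_iff_of_same le_rfl hg2 hs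
  have hins : ∀ x, x < n → (Ins up g2 v x ↔ Ins up g2 (v * T S hS) x) := fun x hx => (hs x hx).1
  refine ⟨?_, ?_⟩
  · intro i j hij hj hlt hI2
    have hi : i < n := by omega
    rw [← hin, V_T v hS hi] at hI2
    rw [V_T v hS hi, V_T v hS hj] at hlt
    exact hv _ _ (th_far hS hij) (th_lt hS hj) hlt (in_th hI hI2)
  · ext c
    rw [mem_Desc]
    constructor
    · rintro ⟨h1, h2, h3, h4⟩
      by_contra hc
      unfold Ins at h2
      rw [← hin, V_T v hS (by omega : c < n)] at h2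
      rw [V_T v hS (by omega : c < n), V_T v hS h1] at h4
      exact hv _ _ (th_near hS hc) (th_lt hS h1) h4
        (in_th hI (height ((hins _ h1).mpr h3) h2))
    · intro hc
      have h1 := hS c hc
      have h2 := hI c hc
      refine ⟨h1.1, (hins c (by omega)).mp h2.1, (hins _ h1.1).mp h2.2, ?_⟩
      rw [V_T v hS (by omega : c < n), V_T v hS h1.1]
      have e1 : th S c = c + 1 := if_pos hc
      have e2 : th S (c + 1) = c := by rw [← e1]; exact th_invol hS c
      rw [e1, e2]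
      by_contra hcon
      have hne : V v c ≠ V v (c + 1) := fun h => by
        have := V_inj v (by omega) h1.1 h
        omega
      exact hv c (c + 1) (by omega) h1.1 (by omega) (height h2.2 h2.1)

open Classical in
theorem fiber12 (S : Finset ℕ) :
    #{w : Equiv.Perm (Fin n) | AvG12 up g2 w ∧ AscS up g2 w = S} =
    #{w : Equiv.Perm (Fin n) | Av12 up 1 g2 w ∧ Q S (out up 1 g2 w)} := by
  by_cases hS : Valid n S
  · apply card_bij' (fun w _ => w * T S hS) (fun w _ => w * T S hS)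
    · intro w hw
      rw [mem_filter] at hw ⊢
      have := to12 hg2 hw.2.1 hS hw.2.2
      exact ⟨mem_univ _, this.1, (Q_iff _ S).mpr ⟨hS, this.2⟩⟩
    · intro w hw
      rw [mem_filter] at hw ⊢
      have h1 := (Q_iff _ S).mp hw.2.2
      exact ⟨mem_univ _, from12 hg2 hw.2.1 hS h1.2⟩
    · intro w _
      exact T_T hS w
    · intro w _
      exact T_T hS w
  · rw [filter_false_of_mem, filter_false_of_mem]
    · rintro w _ ⟨_, h⟩
      exact hS ((Q_iff _ S).mp h).1
    · rintro w _ ⟨h1, h2⟩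
      apply hS
      rw [← h2]
      exact valid_Asc h1

open Classical in
theorem fiber21 (S : Finset ℕ) :
    #{w : Equiv.Perm (Fin n) | AvG21 up g2 w ∧ DescS up g2 w = S} =
    #{w : Equiv.Perm (Fin n) | Av21 up 1 g2 w ∧ Q S (out up 1 g2 w)} := by
  by_cases hS : Valid n S
  · apply card_bij' (fun w _ => w * T S hS) (fun w _ => w * T S hS)
    · intro w hw
      rw [mem_filter] at hw ⊢
      have := to21 hg2 hw.2.1 hS hw.2.2
      exact ⟨mem_univ _, this.1, (Q_iff _ S).mpr ⟨hS, this.2⟩⟩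
    · intro w hw
      rw [mem_filter] at hw ⊢
      have h1 := (Q_iff _ S).mp hw.2.2
      exact ⟨mem_univ _, from21 hg2 hw.2.1 hS h1.2⟩
    · intro w _
      exact T_T hS w
    · intro w _
      exact T_T hS w
  · rw [filter_false_of_mem, filter_false_of_mem]
    · rintro w _ ⟨_, h⟩
      exact hS ((Q_iff _ S).mp h).1
    · rintro w _ ⟨h1, h2⟩
      apply hS
      rw [← h2]
      exact valid_Desc h1

open Classical in
/-- **Theorem B.** -/
theorem cardG_eq : #{w : Equiv.Perm (Fin n) | AvG12 up g2 w} =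
    #{w : Equiv.Perm (Fin n) | AvG21 up g2 w} := by
  have h1 : #{w : Equiv.Perm (Fin n) | AvG12 up g2 w} =
      ∑ S ∈ (range n).powerset, #{w : Equiv.Perm (Fin n) | AvG12 up g2 w ∧ AscS up g2 w = S} := by
    rw [card_eq_sum_card_fiberwise (f := AscS up g2) (t := (range n).powerset)]
    · apply sum_congr rfl
      intro S _
      rw [filter_filter]
    · intro w _
      rw [mem_coe, mem_powerset]
      exact filter_subset _ _
  have h2 : #{w : Equiv.Perm (Fin n) | AvG21 up g2 w} =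
      ∑ S ∈ (range n).powerset, #{w : Equiv.Perm (Fin n) | AvG21 up g2 w ∧ DescS up g2 w = S} := by
    rw [card_eq_sum_card_fiberwise (f := DescS up g2) (t := (range n).powerset)]
    · apply sum_congr rfl
      intro S _
      rw [filter_filter]
    · intro w _
      rw [mem_coe, mem_powerset]
      exact filter_subset _ _
  rw [h1, h2]
  apply sum_congr rfl
  intro S _
  rw [fiber12 hg2, fiber21 hg2, card_eq le_rfl hg2]

end

end R123.Gap
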